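import Pool.Agent.N661.BR.Base
import Pool.Agent.Y265.RW.Fn1

/-!
# BR/LAW: from values to derivatives (helper511)
-/

set_option autoImplicit false
open MeasureTheory Filter Topology Complex
open scoped ContDiff

namespace Pool.Agent.N511.BRLAW

open Pool.Agent.N661.BR
open Pool.Agent.W745.RW (TF W Sys Dp Dm dx dy)
open Pool.Agent.Y265.RW

noncomputable section

/-- a finite combination of the values of `E` -/
def comb {ι : Type} [Fintype ι] (E : ℤ → ℂ → ℂ) (c : ι → ℂ) (a : ι → ℤ) (w : ι → ℂ) : ℂ :=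
  ∑ j, c j * E (a j) (w j)

lemma comb_equiv {ι κ : Type} [Fintype ι] [Fintype κ] (e : ι ≃ κ) (E : ℤ → ℂ → ℂ) (c : κ → ℂ)
    (a : κ → ℤ) (w : κ → ℂ) : comb E (c ∘ e) (a ∘ e) (w ∘ e) = comb E c a w :=
  Equiv.sum_comp e (fun j => c j * E (a j) (w j))

/-- the values near `z` -/
def EW (h : ℝ) (u : ℂ → ℝ) (z : ℂ) (b : ℤ) (w : ℂ) : ℂ := W h u b (z + (h : ℂ) * w)

/-- the symbols -/
def ES (α : ℝ) (b : ℤ) (w : ℂ) : ℂ := sy α ^ b * Complex.exp ((rr w α : ℂ) * I)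

/-- the values of a wave -/
def EL (f : MW) (b : ℤ) (w : ℂ) : ℂ := W 1 f b w

lemma iso_T (hI : S_ISO) {Ω : Set ℂ} (hΩ : IsOpen Ω) {h : ℕ → ℝ} {u : ℕ → ℂ → ℝ} (hS : Sys Ω h u)
    {φ : ℂ → ℝ} (hφ : TF Ω φ) {ι : Type} [Fintype ι] (c : ι → ℂ) (a : ι → ℤ) (w : ι → ℂ) :
    Tendsto (fun n => ∫ z, φ z * ‖comb (EW (h n) (u n) z) c a w‖ ^ 2) atTop
      (𝓝 ((1 / (2 * Real.pi) * ∫ α in (0:ℝ)..(2 * Real.pi), ‖comb (ES α) c a w‖ ^ 2) *
        ∫ z, φ z)) := by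
  set e := (Fintype.equivFin ι).symm with he
  have h1 := hI Ω hΩ h u hS φ hφ _ (c ∘ e) (a ∘ e) (w ∘ e)
  have h2 : ∀ (n : ℕ) (z : ℂ), ∑ i, (c ∘ e) i * W (h n) (u n) ((a ∘ e) i)
      (z + (h n : ℂ) * (w ∘ e) i) = comb (EW (h n) (u n) z) c a w := fun n z =>
    comb_equiv e (EW (h n) (u n) z) c a w
  have h3 : ∀ α : ℝ, ∑ i, (c ∘ e) i * (sy α ^ ((a ∘ e) i) *
      Complex.exp ((rr ((w ∘ e) i) α : ℂ) * I)) = comb (ES α) c a w := fun α =>
    comb_equiv e (ES α) c a w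
  simp_rw [h2, h3] at h1
  exact h1

/-- the approximation property, for arbitrary finite index types -/
def ApxT (Ω : Set ℂ) (V : ℝ) (h : ℕ → ℝ) (u : ℕ → ℂ → ℝ) (μ : Measure MW) {ι : Type} [Fintype ι]
    (c : ι → ℂ) (a : ι → ℤ) (w : ι → ℂ) : Prop :=
  ∀ φ, TF Ω φ → (∀ z, φ z ∈ Set.Icc (0 : ℝ) 1) → ∀ η : ℝ, 0 < η → ∀ᶠ n in atTop,
    ‖((1 / V : ℝ) : ℂ) * (∫ z, (φ z : ℂ) * Complex.exp
        (I * (((comb (EW (h n) (u n) z) c a w).re : ℝ) : ℂ))) -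
      ∫ f : MW, Complex.exp (I * (((comb (EL f) c a w).re : ℝ) : ℂ)) ∂μ‖ ≤
      1 - (∫ z, φ z) / V + η

lemma apx_T {Ω : Set ℂ} {V : ℝ} {h : ℕ → ℝ} {u : ℕ → ℂ → ℝ} {μ : Measure MW} {K : ℕ}
    (H : ∀ (k : ℕ) (c : Fin k → ℂ) (a : Fin k → ℤ) (w : Fin k → ℂ), (∀ j, (a j).natAbs ≤ K) →
      Apx Ω V h u μ c a w) {ι : Type} [Fintype ι] (c : ι → ℂ) (a : ι → ℤ) (w : ι → ℂ)
    (ha : ∀ j, (a j).natAbs ≤ K) : ApxT Ω V h u μ c a w := by
  intro φ hφ h01 η hη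
  set e := (Fintype.equivFin ι).symm with he
  have h1 := H _ (c ∘ e) (a ∘ e) (w ∘ e) (fun j => ha _) φ hφ h01 η hη
  have h2 : ∀ (n : ℕ) (z : ℂ), ∑ i, (c ∘ e) i * W (h n) (u n) ((a ∘ e) i)
      (z + (h n : ℂ) * (w ∘ e) i) = comb (EW (h n) (u n) z) c a w := fun n z =>
    comb_equiv e (EW (h n) (u n) z) c a w
  have h3 : ∀ f : MW, ∑ i, (c ∘ e) i * W 1 f ((a ∘ e) i) ((w ∘ e) i) = comb (EL f) c a w :=
    fun f => comb_equiv e (EL f) c a w
  simp_rw [h2, h3] at h1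
  exact h1

/-! ### difference quotients -/

def cc (K m : ℕ) (c : ℂ) (a : ℤ) : Fin 3 → ℂ :=
  if a.natAbs ≤ K then ![0, 0, c]
  else if 0 < a then ![c * (m + 1), -(I * c * (m + 1)), -(c * (m + 1)) + I * c * (m + 1)]
  else ![-(c * (m + 1)), -(I * c * (m + 1)), c * (m + 1) + I * c * (m + 1)]

def aa (K : ℕ) (a : ℤ) : ℤ := if a.natAbs ≤ K then a else if 0 < a then a - 1 else a + 1

def ww (m : ℕ) (w : ℂ) : Fin 3 → ℂ :=
  ![w + ((1 / ((m : ℝ) + 1) : ℝ) : ℂ) * 1, w + ((1 / ((m : ℝ) + 1) : ℝ) : ℂ) * I, w]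

/-- the replacement of one term -/
def rep (K m : ℕ) (E : ℤ → ℂ → ℂ) (c : ℂ) (a : ℤ) (w : ℂ) : ℂ :=
  ∑ i, cc K m c a i * E (aa K a) (ww m w i)

lemma aa_le {K : ℕ} {a : ℤ} (h : a.natAbs ≤ K + 1) : (aa K a).natAbs ≤ K := by
  unfold aa
  split_ifs <;> omega

lemma ww_le (m : ℕ) (w : ℂ) (i : Fin 3) : ‖ww m w i‖ ≤ ‖w‖ + 1 := by
  have he : ‖((1 / ((m : ℝ) + 1) : ℝ) : ℂ)‖ ≤ 1 := by
    rw [Complex.norm_real, Real.norm_of_nonneg (by positivity)]
    rw [div_le_one (by positivity)]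
    have : (0 : ℝ) ≤ m := Nat.cast_nonneg m
    linarith
  fin_cases i
  · show ‖w + ((1 / ((m : ℝ) + 1) : ℝ) : ℂ) * 1‖ ≤ _
    refine (norm_add_le _ _).trans ?_
    rw [mul_one]; linarith
  · show ‖w + ((1 / ((m : ℝ) + 1) : ℝ) : ℂ) * I‖ ≤ _
    refine (norm_add_le _ _).trans ?_
    rw [norm_mul, Complex.norm_I, mul_one]; linarith
  · show ‖w‖ ≤ _
    linarith

lemma rep_le {K m : ℕ} {E : ℤ → ℂ → ℂ} {c : ℂ} {a : ℤ} {w : ℂ} (h : a.natAbs ≤ K) :
    rep K m E c a w = c * E a w := by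
  unfold rep cc aa ww
  rw [if_pos h, if_pos h, Fin.sum_univ_three]
  simp

lemma rep_pos {K m : ℕ} {E : ℤ → ℂ → ℂ} {c : ℂ} {a : ℤ} {w : ℂ} (h : ¬ a.natAbs ≤ K)
    (h0 : 0 < a) : rep K m E c a w = c *
      (((m : ℂ) + 1) * (E (a - 1) (w + ((1 / ((m : ℝ) + 1) : ℝ) : ℂ) * 1) - E (a - 1) w) -
      I * (((m : ℂ) + 1) * (E (a - 1) (w + ((1 / ((m : ℝ) + 1) : ℝ) : ℂ) * I) - E (a - 1) w))) := by
  unfold rep cc aa ww
  rw [if_neg h, if_neg h, if_pos h0, if_pos h0, Fin.sum_univ_three]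
  simp only [Matrix.cons_val]
  ring

lemma rep_neg {K m : ℕ} {E : ℤ → ℂ → ℂ} {c : ℂ} {a : ℤ} {w : ℂ} (h : ¬ a.natAbs ≤ K)
    (h0 : ¬ 0 < a) : rep K m E c a w = -(c *
      (((m : ℂ) + 1) * (E (a + 1) (w + ((1 / ((m : ℝ) + 1) : ℝ) : ℂ) * 1) - E (a + 1) w) +
      I * (((m : ℂ) + 1) * (E (a + 1) (w + ((1 / ((m : ℝ) + 1) : ℝ) : ℂ) * I) - E (a + 1) w)))) := by
  unfold rep cc aa ww
  rw [if_neg h, if_neg h, if_neg h0, if_neg h0, Fin.sum_univ_three]
  simp only [Matrix.cons_val]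
  ring

/-- the limit of the replacements for a wave -/
lemma rep_tendsto (K : ℕ) (f : MW) (c : ℂ) (a : ℤ) (w : ℂ) :
    Tendsto (fun m : ℕ => rep K m (EL f) c a w) atTop (𝓝 (c * EL f a w)) := by
  have hd : ∀ b : ℤ, Differentiable ℝ (W 1 f b) := fun b =>
    (W_smooth f b).differentiable (by simp)
  by_cases h : a.natAbs ≤ K
  · simp_rw [rep_le h]
    exact tendsto_const_nhds
  by_cases h0 : 0 < a
  · simp_rw [rep_pos h h0]
    have h1 := fd_lim (hd (a - 1)) w 1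
    have h2 := fd_lim (hd (a - 1)) w I
    have h3 := ((h1.sub (h2.const_mul I)).const_mul c)
    have h4 : c * (fderiv ℝ (W 1 f (a - 1)) w 1 - I * fderiv ℝ (W 1 f (a - 1)) w I) =
        c * EL f a w := by
      have h5 := Dp_W f (a - 1) w
      rw [sub_add_cancel] at h5
      unfold EL
      rw [← h5]
      unfold Dp dx dy
      rw [Complex.ofReal_one, one_mul]
    rw [← h4]
    exact h3
  · simp_rw [rep_neg h h0]
    have h1 := fd_lim (hd (a + 1)) w 1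
    have h2 := fd_lim (hd (a + 1)) w I
    have h3 := ((h1.add (h2.const_mul I)).const_mul c).neg
    have h4 : -(c * (fderiv ℝ (W 1 f (a + 1)) w 1 + I * fderiv ℝ (W 1 f (a + 1)) w I)) =
        c * EL f a w := by
      have h5 := Dm_W f (a + 1) w
      rw [add_sub_cancel_right] at h5
      unfold EL
      rw [← neg_eq_iff_eq_neg.2 h5]
      unfold Dm dx dy
      rw [Complex.ofReal_one, one_mul]
      ring
    rw [← h4]
    exact h3

lemma rr_add (w w' : ℂ) (α : ℝ) : rr (w + w') α = rr w α + rr w' α := by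
  unfold rr
  rw [Complex.add_re, Complex.add_im]; ring

lemma ES_add (α : ℝ) (b : ℤ) (w x : ℂ) :
    ES α b (w + x) = ES α b w * Complex.exp ((rr x α : ℂ) * I) := by
  unfold ES
  rw [rr_add, Complex.ofReal_add, add_mul, Complex.exp_add, mul_assoc]

lemma ES_norm (α : ℝ) (b : ℤ) (w : ℂ) : ‖ES α b w‖ = 1 := by
  unfold ES
  rw [norm_mul, norm_zpow, sy_norm, one_zpow, one_mul, Complex.norm_exp_ofReal_mul_I]

lemma quot (m : ℕ) (x : ℝ) (hx : |x| ≤ 1) :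
    ‖(x : ℂ) * I - ((m : ℂ) + 1) * (Complex.exp (((1 / ((m : ℝ) + 1) * x : ℝ) : ℂ) * I) - 1)‖ ≤
      1 / ((m : ℝ) + 1) := by
  set e : ℝ := 1 / ((m : ℝ) + 1) with he
  have hm : (0 : ℝ) < (m : ℝ) + 1 := by positivity
  have he0 : 0 < e := by positivity
  have he1 : e ≤ 1 := by
    rw [he, div_le_one hm]
    have : (0 : ℝ) ≤ m := Nat.cast_nonneg m
    linarith
  have hme : ((m : ℝ) + 1) * e = 1 := by rw [he]; field_simp
  set y : ℂ := ((e * x : ℝ) : ℂ) * I with hy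
  have hyn : ‖y‖ ≤ e := by
    rw [hy, norm_mul, Complex.norm_I, mul_one, Complex.norm_real, Real.norm_eq_abs, abs_mul,
      abs_of_pos he0]
    nlinarith
  have h1 := Complex.norm_exp_sub_one_sub_id_le (x := y) (hyn.trans he1)
  have h2 : (x : ℂ) * I - ((m : ℂ) + 1) * (Complex.exp y - 1) =
      -(((m : ℂ) + 1) * (Complex.exp y - 1 - y)) := by
    have h3 : ((m : ℂ) + 1) * y = (x : ℂ) * I := by
      rw [hy, Complex.ofReal_mul]
      have : ((m : ℂ) + 1) * (e : ℂ) = 1 := by exact_mod_cast hme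
      linear_combination (x : ℂ) * I * this
    linear_combination -h3
  rw [h2, norm_neg, norm_mul]
  have h4 : ‖((m : ℂ) + 1)‖ = (m : ℝ) + 1 := by
    rw [show ((m : ℂ) + 1) = (((m : ℝ) + 1 : ℝ) : ℂ) by push_cast; rfl, Complex.norm_real,
      Real.norm_of_nonneg hm.le]
  rw [h4]
  calc ((m : ℝ) + 1) * ‖Complex.exp y - 1 - y‖ ≤ ((m : ℝ) + 1) * e ^ 2 :=
        mul_le_mul_of_nonneg_left (h1.trans (pow_le_pow_left₀ (norm_nonneg _) hyn 2)) hm.le
    _ = e := by rw [sq, ← mul_assoc, hme, one_mul]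

lemma sy_eq (α : ℝ) : sy α = (Real.cos α : ℂ) * I - I * ((Real.sin α : ℂ) * I) := by
  unfold sy
  rw [show -(α : ℂ) * I = ((-α : ℝ) : ℂ) * I by push_cast; ring, Complex.exp_mul_I]
  push_cast
  rw [Complex.cos_neg, Complex.sin_neg]; ring

lemma sy_inv (α : ℝ) : (sy α)⁻¹ = -((Real.cos α : ℂ) * I + I * ((Real.sin α : ℂ) * I)) := by
  have hc : (Real.cos α : ℂ) ^ 2 + (Real.sin α : ℂ) ^ 2 = 1 := by
    exact_mod_cast Real.cos_sq_add_sin_sq α
  refine inv_eq_of_mul_eq_one_right ?_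
  rw [sy_eq]
  have hI : I ^ 2 = -1 := Complex.I_sq
  linear_combination hc + (-(Real.cos α : ℂ) ^ 2 + (Real.sin α : ℂ) ^ 2 * (I ^ 2 - 1)) * hI

/-- the error of the replacement for the symbols -/
lemma rep_symb (K m : ℕ) (α : ℝ) (c : ℂ) (a : ℤ) (w : ℂ) :
    ‖c * ES α a w - rep K m (ES α) c a w‖ ≤ ‖c‖ * (2 / ((m : ℝ) + 1)) := by
  have hq1 := quot m (Real.cos α) (Real.abs_cos_le_one α)
  have hq2 := quot m (Real.sin α) (Real.abs_sin_le_one α)
  have hr1 : rr (((1 / ((m : ℝ) + 1) : ℝ) : ℂ) * 1) α = 1 / ((m : ℝ) + 1) * Real.cos α := by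
    unfold rr
    rw [mul_one, Complex.ofReal_re, Complex.ofReal_im]; ring
  have hr2 : rr (((1 / ((m : ℝ) + 1) : ℝ) : ℂ) * I) α = 1 / ((m : ℝ) + 1) * Real.sin α := by
    unfold rr
    rw [Complex.re_ofReal_mul, Complex.im_ofReal_mul, Complex.I_re, Complex.I_im]; ring
  set q1 : ℂ := (Real.cos α : ℂ) * I - ((m : ℂ) + 1) *
    (Complex.exp (((1 / ((m : ℝ) + 1) * Real.cos α : ℝ) : ℂ) * I) - 1) with hq1d
  set q2 : ℂ := (Real.sin α : ℂ) * I - ((m : ℂ) + 1) *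
    (Complex.exp (((1 / ((m : ℝ) + 1) * Real.sin α : ℝ) : ℂ) * I) - 1) with hq2d
  by_cases h : a.natAbs ≤ K
  · rw [rep_le h, sub_self, norm_zero]
    positivity
  by_cases h0 : 0 < a
  · have e1 : ES α a w = ES α (a - 1) w * sy α := by
      unfold ES
      have : sy α ^ a = sy α ^ (a - 1) * sy α := by
        rw [← zpow_add_one₀ (sy_ne α), sub_add_cancel]
      rw [this]; ring
    have e2 : c * ES α a w - rep K m (ES α) c a w = c * ES α (a - 1) w * (q1 - I * q2) := by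
      rw [rep_pos h h0, ES_add, ES_add, hr1, hr2, e1, sy_eq, hq1d, hq2d]
      ring
    rw [e2, norm_mul, norm_mul, ES_norm, mul_one]
    refine mul_le_mul_of_nonneg_left ((norm_sub_le _ _).trans ?_) (norm_nonneg _)
    rw [norm_mul, Complex.norm_I, one_mul]
    have : 2 / ((m : ℝ) + 1) = 1 / ((m : ℝ) + 1) + 1 / ((m : ℝ) + 1) := by ring
    linarith
  · have e1 : ES α a w = ES α (a + 1) w * (sy α)⁻¹ := by
      unfold ES
      have : sy α ^ a = sy α ^ (a + 1) * (sy α)⁻¹ := by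
        rw [← zpow_sub_one₀ (sy_ne α), add_sub_cancel_right]
      rw [this]; ring
    have e2 : c * ES α a w - rep K m (ES α) c a w = -(c * ES α (a + 1) w * (q1 + I * q2)) := by
      rw [rep_neg h h0, ES_add, ES_add, hr1, hr2, e1, sy_inv, hq1d, hq2d]
      ring
    rw [e2, norm_neg, norm_mul, norm_mul, ES_norm, mul_one]
    refine mul_le_mul_of_nonneg_left ((norm_add_le _ _).trans ?_) (norm_nonneg _)
    rw [norm_mul, Complex.norm_I, one_mul]
    have : 2 / ((m : ℝ) + 1) = 1 / ((m : ℝ) + 1) + 1 / ((m : ℝ) + 1) := by ring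
    linarith

/-! ### the new families -/

section Fam

variable {ι : Type} [Fintype ι] (K m : ℕ) (c : ι → ℂ) (a : ι → ℤ) (w : ι → ℂ)

def cF (p : ι × Fin 3) : ℂ := cc K m (c p.1) (a p.1) p.2
def aF (p : ι × Fin 3) : ℤ := aa K (a p.1)
def wF (p : ι × Fin 3) : ℂ := ww m (w p.1) p.2

lemma comb_F (E : ℤ → ℂ → ℂ) :
    comb E (cF K m c a) (aF K a) (wF m w) = ∑ j, rep K m E (c j) (a j) (w j) := by
  unfold comb rep
  rw [Fintype.sum_prod_type]
  rfl

def cD : ι ⊕ (ι × Fin 3) → ℂ := Sum.elim c fun p => -cF K m c a p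
def aD : ι ⊕ (ι × Fin 3) → ℤ := Sum.elim a (aF K a)
def wD : ι ⊕ (ι × Fin 3) → ℂ := Sum.elim w (wF m w)

lemma comb_D (E : ℤ → ℂ → ℂ) :
    comb E (cD K m c a) (aD K a) (wD m w) =
      comb E c a w - comb E (cF K m c a) (aF K a) (wF m w) := by
  unfold comb cD aD wD
  rw [Fintype.sum_sum_type, sub_eq_add_neg, ← Finset.sum_neg_distrib]
  congr 1
  refine Finset.sum_congr rfl fun p _ => ?_
  simp only [Sum.elim_inr, neg_mul]

lemma symb_D (α : ℝ) : ‖comb (ES α) (cD K m c a) (aD K a) (wD m w)‖ ≤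
    (∑ j, ‖c j‖) * (2 / ((m : ℝ) + 1)) := by
  rw [comb_D, comb_F]
  unfold comb
  rw [← Finset.sum_sub_distrib, Finset.sum_mul]
  exact (norm_sum_le _ _).trans (Finset.sum_le_sum fun j _ => rep_symb K m α _ _ _)

end Fam

lemma exp_lip (x y : ℝ) : ‖Complex.exp (I * (x : ℂ)) - Complex.exp (I * (y : ℂ))‖ ≤ |x - y| := by
  have h1 : Complex.exp (I * (x : ℂ)) - Complex.exp (I * (y : ℂ)) =
      Complex.exp ((y : ℂ) * I) * (Complex.exp (I * ((x - y : ℝ) : ℂ)) - 1) := by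
    rw [mul_sub, mul_one, ← Complex.exp_add]
    congr 2
    · push_cast; ring
    · ring
  rw [h1, norm_mul, Complex.norm_exp_ofReal_mul_I, one_mul, ← Real.norm_eq_abs]
  exact Real.norm_exp_I_mul_ofReal_sub_one_le

lemma norm_exp_I (x : ℝ) : ‖Complex.exp (I * (x : ℂ))‖ = 1 := by
  rw [mul_comm, Complex.norm_exp_ofReal_mul_I]

section Side

variable {Ω B L : Set ℂ} {h : ℕ → ℝ} {R : ℝ}

lemma comb_cont (cf : Cfg Ω B L h R) {u : ℕ → ℂ → ℝ} (hS : Sys Ω h u) {ι : Type} [Fintype ι]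
    (c : ι → ℂ) (a : ι → ℤ) (w : ι → ℂ) (hw : ∀ i, ‖w i‖ ≤ R) (n : ℕ) :
    ContinuousOn (fun z => comb (EW (h n) (u n) z) c a w) B := by
  unfold comb
  refine continuousOn_finsetSum _ fun i _ => ?_
  exact continuousOn_const.mul ((famV cf hS (hw i)).smooth n (a i)).continuousOn

lemma exp_cont (cf : Cfg Ω B L h R) {u : ℕ → ℂ → ℝ} (hS : Sys Ω h u) {ι : Type} [Fintype ι]
    (c : ι → ℂ) (a : ι → ℤ) (w : ι → ℂ) (hw : ∀ i, ‖w i‖ ≤ R) (n : ℕ) :
    ContinuousOn (fun z => Complex.exp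
      (I * (((comb (EW (h n) (u n) z) c a w).re : ℝ) : ℂ))) B := by
  have h1 := comb_cont cf hS c a w hw n
  have h2 : Continuous fun x : ℂ => Complex.exp (I * ((x.re : ℝ) : ℂ)) := by fun_prop
  exact h2.comp_continuousOn h1

lemma nside (cf : Cfg Ω B L h R) {u : ℕ → ℂ → ℝ} (hS : Sys Ω h u) {φ : ℂ → ℝ} (hφ : TF B φ)
    (h01 : ∀ z, φ z ∈ Set.Icc (0 : ℝ) 1) {ι κ : Type} [Fintype ι] [Fintype κ]
    (c : ι → ℂ) (a : ι → ℤ) (w : ι → ℂ) (hw : ∀ i, ‖w i‖ ≤ R)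
    (c' : κ → ℂ) (a' : κ → ℤ) (w' : κ → ℂ) (hw' : ∀ i, ‖w' i‖ ≤ R) (n : ℕ) {δ : ℝ} (hδ : 0 < δ) :
    ‖(∫ z, (φ z : ℂ) * Complex.exp (I * (((comb (EW (h n) (u n) z) c a w).re : ℝ) : ℂ))) -
      ∫ z, (φ z : ℂ) * Complex.exp (I * (((comb (EW (h n) (u n) z) c' a' w').re : ℝ) : ℂ))‖ ≤
      δ / 2 * (∫ z, φ z) + 1 / (2 * δ) * ∫ z, φ z *
        ‖comb (EW (h n) (u n) z) c a w - comb (EW (h n) (u n) z) c' a' w'‖ ^ 2 := by
  have i1 := int_mul cf.oB hφ (exp_cont cf hS c a w hw n)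
  have i2 := int_mul cf.oB hφ (exp_cont cf hS c' a' w' hw' n)
  have i3 : Integrable φ := hφ.1.continuous.integrable_of_hasCompactSupport hφ.2.1
  have i4 : Integrable (fun z => φ z *
      ‖comb (EW (h n) (u n) z) c a w - comb (EW (h n) (u n) z) c' a' w'‖ ^ 2) :=
    int_mulr cf.oB hφ (((comb_cont cf hS c a w hw n).sub (comb_cont cf hS c' a' w' hw' n)).norm.pow 2)
  rw [← integral_sub i1 i2, ← integral_const_mul, ← integral_const_mul,
    ← integral_add (i3.const_mul _) (i4.const_mul _)]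
  refine norm_integral_le_of_norm_le ((i3.const_mul _).add (i4.const_mul _))
    (Eventually.of_forall fun z => ?_)
  rw [← mul_sub, norm_mul, Complex.norm_real, Real.norm_of_nonneg (h01 z).1]
  set Y := comb (EW (h n) (u n) z) c a w
  set Y' := comb (EW (h n) (u n) z) c' a' w'
  have h1 : ‖Complex.exp (I * ((Y.re : ℝ) : ℂ)) - Complex.exp (I * ((Y'.re : ℝ) : ℂ))‖ ≤
      ‖Y - Y'‖ := by
    refine (exp_lip _ _).trans ?_
    rw [← Complex.sub_re]
    exact Complex.abs_re_le_norm _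
  have h2 : ‖Y - Y'‖ ≤ δ / 2 + 1 / (2 * δ) * ‖Y - Y'‖ ^ 2 := by
    have h3 : δ / 2 + 1 / (2 * δ) * ‖Y - Y'‖ ^ 2 - ‖Y - Y'‖ = (‖Y - Y'‖ - δ) ^ 2 / (2 * δ) := by
      field_simp; ring
    have h4 : 0 ≤ (‖Y - Y'‖ - δ) ^ 2 / (2 * δ) := by positivity
    linarith
  have h5 := mul_le_mul_of_nonneg_left (h1.trans h2) (h01 z).1
  refine h5.trans (le_of_eq ?_)
  ring

end Side

/-- the induction step -/
lemma step (hI : S_ISO) {Ω : Set ℂ} (hΩ : IsOpen Ω) {h : ℕ → ℝ} {u : ℕ → ℂ → ℝ} (hS : Sys Ω h u)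
    {V : ℝ} (hV : 0 < V) {μ : Measure MW} [IsProbabilityMeasure μ] (K : ℕ)
    (IH : ∀ (k : ℕ) (c : Fin k → ℂ) (a : Fin k → ℤ) (w : Fin k → ℂ), (∀ j, (a j).natAbs ≤ K) →
      Apx Ω V h u μ c a w) (k : ℕ) (c : Fin k → ℂ) (a : Fin k → ℤ) (w : Fin k → ℂ)
    (ha : ∀ j, (a j).natAbs ≤ K + 1) : Apx Ω V h u μ c a w := by
  intro φ hφ h01 η hη
  set P : ℝ := ∫ z, φ z with hP
  have hP0 : 0 ≤ P := integral_nonneg fun z => (h01 z).1
  set S : ℝ := ∑ j, ‖c j‖ with hSd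
  have hS0 : 0 ≤ S := by positivity
  set δ : ℝ := η * V / (4 * (P + 1)) with hδd
  have hδ : 0 < δ := by positivity
  -- the choice of `m`
  have hm1 : ∀ᶠ m : ℕ in atTop, (S * (2 / ((m : ℝ) + 1))) ^ 2 * P ≤ δ * V * η / 4 := by
    have h1 : Tendsto (fun m : ℕ => (S * (2 / ((m : ℝ) + 1))) ^ 2 * P) atTop
        (𝓝 ((S * 0) ^ 2 * P)) := by
      refine Tendsto.mul_const _ ((Tendsto.const_mul S ?_).pow 2)
      have := (tendsto_one_div_add_atTop_nhds_zero_nat (𝕜 := ℝ)).const_mul 2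
      rw [mul_zero] at this
      refine this.congr fun m => ?_
      ring
    rw [mul_zero, zero_pow two_ne_zero, zero_mul] at h1
    exact h1.eventually (ge_mem_nhds (by positivity))
  have hmeas : ∀ (b : ℤ) (x : ℂ), Measurable fun f : MW => EL f b x := fun b x => meas_W b x
  have hmc : ∀ {ι : Type} [Fintype ι] (c : ι → ℂ) (a : ι → ℤ) (w : ι → ℂ),
      Measurable fun f : MW => comb (EL f) c a w := by
    intro ι _ c a w
    unfold comb
    exact Finset.measurable_sum _ fun j _ => (hmeas _ _).const_mul _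
  have hme : Continuous fun x : ℂ => Complex.exp (I * ((x.re : ℝ) : ℂ)) := by fun_prop
  have hm2 : Tendsto (fun m : ℕ => ∫ f : MW, Complex.exp
      (I * (((comb (EL f) (cF K m c a) (aF K a) (wF m w)).re : ℝ) : ℂ)) ∂μ) atTop
      (𝓝 (∫ f : MW, Complex.exp (I * (((comb (EL f) c a w).re : ℝ) : ℂ)) ∂μ)) := by
    refine tendsto_integral_of_dominated_convergence (fun _ => (1 : ℝ)) ?_ (integrable_const _) ?_ ?_
    · intro m
      exact (hme.measurable.comp (hmc _ _ _)).aestronglyMeasurable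
    · intro m
      exact Eventually.of_forall fun f => (norm_exp_I _).le
    · refine Eventually.of_forall fun f => ?_
      have h1 : Tendsto (fun m : ℕ => comb (EL f) (cF K m c a) (aF K a) (wF m w)) atTop
          (𝓝 (comb (EL f) c a w)) := by
        simp_rw [comb_F]
        unfold comb
        exact tendsto_finsetSum _ fun j _ => rep_tendsto K f _ _ _
      exact (hme.tendsto _).comp h1
  have hm3 : ∀ᶠ m : ℕ in atTop, ‖(∫ f : MW, Complex.exp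
      (I * (((comb (EL f) (cF K m c a) (aF K a) (wF m w)).re : ℝ) : ℂ)) ∂μ) -
      ∫ f : MW, Complex.exp (I * (((comb (EL f) c a w).re : ℝ) : ℂ)) ∂μ‖ ≤ η / 4 := by
    have := (tendsto_iff_norm_sub_tendsto_zero.1 hm2).eventually (ge_mem_nhds (by positivity : 0 < η / 4))
    exact this
  obtain ⟨m, hm1, hm3⟩ := (hm1.and hm3).exists
  -- the approximation for the new family
  have hF := apx_T IH (cF K m c a) (aF K a) (wF m w) (fun p => aa_le (ha p.1)) φ hφ h01 (η / 4)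
    (by positivity)
  -- the difference
  have hD := iso_T hI hΩ hS hφ (cD K m c a) (aD K a) (wD m w)
  have hDl : (1 / (2 * Real.pi) * ∫ α in (0:ℝ)..(2 * Real.pi),
      ‖comb (ES α) (cD K m c a) (aD K a) (wD m w)‖ ^ 2) * P ≤ δ * V * η / 4 := by
    refine le_trans (mul_le_mul_of_nonneg_right ?_ hP0) hm1
    have h1 := intervalIntegral.norm_integral_le_of_norm_le_const (a := (0:ℝ)) (b := 2 * Real.pi)
      (f := fun α => ‖comb (ES α) (cD K m c a) (aD K a) (wD m w)‖ ^ 2)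
      (C := (S * (2 / ((m : ℝ) + 1))) ^ 2) (fun α _ => by
        rw [norm_pow, norm_norm]
        exact pow_le_pow_left₀ (norm_nonneg _) (symb_D K m c a w α) 2)
    rw [sub_zero, abs_of_pos (by positivity)] at h1
    have h2 := (le_abs_self _).trans h1
    calc 1 / (2 * Real.pi) * ∫ α in (0:ℝ)..(2 * Real.pi),
          ‖comb (ES α) (cD K m c a) (aD K a) (wD m w)‖ ^ 2
        ≤ 1 / (2 * Real.pi) * ((S * (2 / ((m : ℝ) + 1))) ^ 2 * (2 * Real.pi)) :=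
          mul_le_mul_of_nonneg_left h2 (by positivity)
      _ = (S * (2 / ((m : ℝ) + 1))) ^ 2 := by
          field_simp
  have hD2 : ∀ᶠ n in atTop, ∫ z, φ z * ‖comb (EW (h n) (u n) z) (cD K m c a) (aD K a) (wD m w)‖ ^ 2 ≤
      δ * V * η / 2 := by
    have h1 : (1 / (2 * Real.pi) * ∫ α in (0:ℝ)..(2 * Real.pi),
      ‖comb (ES α) (cD K m c a) (aD K a) (wD m w)‖ ^ 2) * P < δ * V * η / 2 := by
      have : 0 < δ * V * η := by positivity
      linarith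
    filter_upwards [hD.eventually (gt_mem_nhds h1)] with n hn using hn.le
  -- a configuration
  set R : ℝ := (∑ j, ‖w j‖) + 1 with hR
  have hR0 : 0 ≤ R := by positivity
  have h0 : ∀ i, ‖w i‖ ≤ ∑ i, ‖w i‖ := fun i =>
    Finset.single_le_sum (f := fun i => ‖w i‖) (fun _ _ => norm_nonneg _) (Finset.mem_univ i)
  obtain ⟨N, B, L, cf, hB⟩ := exists_cfg hΩ hS.hlim hφ R hR0
  have hw1 : ∀ i, ‖w i‖ ≤ R := fun i => by linarith [h0 i]
  have hw2 : ∀ p, ‖wF m w p‖ ≤ R := fun p => by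
    have := ww_le m (w p.1) p.2
    have h3 := h0 p.1
    unfold wF
    linarith
  filter_upwards [hF, hD2, eventually_ge_atTop N] with n hFn hDn hn
  obtain ⟨l, rfl⟩ : ∃ l, n = l + N := ⟨n - N, by omega⟩
  have hns := nside cf (Pool.Agent.Y265.RW.Sys.shift hS N) hB h01 c a w hw1
    (cF K m c a) (aF K a) (wF m w) hw2 l hδ
  simp_rw [comb_D] at hDn
  set X : ℂ := ∫ z, (φ z : ℂ) * Complex.exp
    (I * (((comb (EW (h (l + N)) (u (l + N)) z) c a w).re : ℝ) : ℂ)) with hX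
  set X' : ℂ := ∫ z, (φ z : ℂ) * Complex.exp
    (I * (((comb (EW (h (l + N)) (u (l + N)) z) (cF K m c a) (aF K a) (wF m w)).re : ℝ) : ℂ)) with hX'
  set M : ℂ := ∫ f : MW, Complex.exp (I * (((comb (EL f) c a w).re : ℝ) : ℂ)) ∂μ with hM
  set M' : ℂ := ∫ f : MW, Complex.exp
    (I * (((comb (EL f) (cF K m c a) (aF K a) (wF m w)).re : ℝ) : ℂ)) ∂μ with hM'
  show ‖((1 / V : ℝ) : ℂ) * X - M‖ ≤ 1 - P / V + η
  have hns' : ‖X - X'‖ ≤ δ / 2 * P + 1 / (2 * δ) * (δ * V * η / 2) := by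
    refine hns.trans ?_
    gcongr
  have e1 : ((1 / V : ℝ) : ℂ) * X - M = ((1 / V : ℝ) : ℂ) * (X - X') +
      (((1 / V : ℝ) : ℂ) * X' - M') + (M' - M) := by ring
  rw [e1]
  have h5 : ‖((1 / V : ℝ) : ℂ) * (X - X')‖ ≤ η / 2 := by
    rw [norm_mul, Complex.norm_real, Real.norm_of_nonneg (by positivity)]
    calc 1 / V * ‖X - X'‖ ≤ 1 / V * (δ / 2 * P + 1 / (2 * δ) * (δ * V * η / 2)) :=
          mul_le_mul_of_nonneg_left hns' (by positivity)
      _ = δ * P / (2 * V) + η / 4 := by field_simp; ring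
      _ ≤ η / 8 + η / 4 := by
          have h6 : δ * P / (2 * V) ≤ η / 8 := by
            rw [hδd, div_le_iff₀ (by positivity)]
            have h7 : η * V / (4 * (P + 1)) * P ≤ η * V / 4 := by
              rw [div_mul_eq_mul_div, div_le_div_iff₀ (by positivity) (by norm_num)]
              nlinarith [mul_pos hη hV]
            linarith
          linarith
      _ ≤ η / 2 := by linarith
  refine (norm_add_le _ _).trans ?_
  have h6 := norm_add_le (((1 / V : ℝ) : ℂ) * (X - X')) (((1 / V : ℝ) : ℂ) * X' - M')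
  linarith

/-- BR/LAW -/
theorem LAW : S_ISO → S_LAW := by
  intro hI Ω hΩ h u hS V hV μ hμ H0 k c a w
  have key : ∀ K : ℕ, ∀ (k : ℕ) (c : Fin k → ℂ) (a : Fin k → ℤ) (w : Fin k → ℂ),
      (∀ j, (a j).natAbs ≤ K) → Apx Ω V h u μ c a w := by
    intro K
    induction K with
    | zero =>
      intro k c a w ha
      have : a = fun _ => 0 := by
        funext j
        have := ha j
        omega
      rw [this]
      exact H0 k c w
    | succ K ih =>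
      intro k c a w ha
      exact step hI hΩ hS hV K ih k c a w ha
  exact key (∑ j, (a j).natAbs) k c a w fun j =>
    Finset.single_le_sum (f := fun j => (a j).natAbs) (fun _ _ => Nat.zero_le _) (Finset.mem_univ j)

end

end Pool.Agent.N511.BRLAW
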