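import Pool.Agent.N661.BR.Base
import Pool.Agent.Y265.RW.Fn1

/-!
# BR/ISO: second moments of finite linear combinations of displaced derivatives (helper511)
-/

set_option autoImplicit false
open MeasureTheory Filter Topology Complex
open scoped ContDiff

namespace Pool.Agent.N511.BRISO

open Pool.Agent.N661.BR
open Pool.Agent.W745.RW (TF W Sys)
open Pool.Agent.Y265.RW

lemma npz (a : ℤ) : (-1 : ℂ) ^ a.natAbs = (-1 : ℂ) ^ a := by
  rcases Int.eq_nat_or_neg a with ⟨n, rfl | rfl⟩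
  · simp
  · rw [Int.natAbs_neg, Int.natAbs_natCast, zpow_neg, zpow_natCast]
    rcases Nat.even_or_odd n with h | h
    · rw [h.neg_one_pow]; simp
    · rw [h.neg_one_pow]; norm_num

lemma sy_pi (α : ℝ) : sy (α + Real.pi) = -sy α := by
  unfold sy
  have h : (-((α + Real.pi : ℝ) : ℂ) * I) = -(α : ℂ) * I + -((Real.pi : ℂ) * I) := by
    push_cast; ring
  rw [h, Complex.exp_add, Complex.exp_neg, Complex.exp_pi_mul_I]
  ring

lemma rr_pi (w : ℂ) (α : ℝ) : rr w (α + Real.pi) = -rr w α := by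
  unfold rr
  rw [Real.cos_add_pi, Real.sin_add_pi]; ring

lemma sy_per (α : ℝ) : sy (α + 2 * Real.pi) = sy α := by
  rw [show α + 2 * Real.pi = (α + Real.pi) + Real.pi by ring, sy_pi, sy_pi, neg_neg]

lemma rr_per (w : ℂ) (α : ℝ) : rr w (α + 2 * Real.pi) = rr w α := by
  rw [show α + 2 * Real.pi = (α + Real.pi) + Real.pi by ring, rr_pi, rr_pi, neg_neg]

lemma rr_neg (w : ℂ) (α : ℝ) : rr (-w) α = -rr w α := by
  unfold rr
  rw [Complex.neg_re, Complex.neg_im]; ring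

lemma rr_sub (w w' : ℂ) (α : ℝ) : rr (w - w') α = rr w α - rr w' α := by
  unfold rr
  rw [Complex.sub_re, Complex.sub_im]; ring

lemma yy_refl (w : ℂ) (b : ℤ) : yy w 1 b = (-1) ^ b * yy (-w) 1 b := by
  unfold yy
  have hper : Function.Periodic
      (fun α : ℝ => sy α ^ b * Complex.exp (((1 : ℝ) : ℂ) * (rr w α : ℂ) * I)) (2 * Real.pi) := by
    intro α
    simp only [sy_per, rr_per]
  have h1 := hper.intervalIntegral_add_eq 0 Real.pi
  rw [zero_add] at h1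
  have h2 := intervalIntegral.integral_comp_add_right (a := 0) (b := 2 * Real.pi)
    (fun α : ℝ => sy α ^ b * Complex.exp (((1 : ℝ) : ℂ) * (rr w α : ℂ) * I)) Real.pi
  rw [zero_add, show 2 * Real.pi + Real.pi = Real.pi + 2 * Real.pi by ring, ← h1] at h2
  have h3 : (∫ α in (0:ℝ)..(2 * Real.pi), sy (α + Real.pi) ^ b *
      Complex.exp (((1 : ℝ) : ℂ) * (rr w (α + Real.pi) : ℂ) * I)) = (-1) ^ b *
      ∫ α in (0:ℝ)..(2 * Real.pi), sy α ^ b * Complex.exp (((1 : ℝ) : ℂ) * (rr (-w) α : ℂ) * I) := by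
    rw [← intervalIntegral.integral_const_mul]
    refine intervalIntegral.integral_congr fun α _ => ?_
    simp only [sy_pi, rr_pi, rr_neg]
    rw [← neg_one_mul (sy α), mul_zpow, mul_assoc]
  rw [← h2, h3]
  ring

lemma coef (w1 w2 : ℂ) (a b : ℤ) :
    (-1 : ℂ) ^ b.natAbs * KW (w2 - w1) a (-b) = yy (w1 - w2) 1 (a - b) := by
  unfold KW
  rw [cvv_eq, ← sub_eq_add_neg, yy_refl, neg_sub, npz, npz]
  have h : (-1 : ℂ) ^ b * ((-1 : ℂ) ^ a * (-1 : ℂ) ^ (a - b)) = 1 := by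
    rw [← zpow_add₀ (by norm_num), ← zpow_add₀ (by norm_num),
      show b + (a + (a - b)) = 2 * a by ring, zpow_mul]
    norm_num
  rw [← mul_assoc, ← mul_assoc, mul_assoc ((-1 : ℂ) ^ b), h, one_mul]

/-- the symbol of the combination -/
noncomputable def symb {k : ℕ} (c : Fin k → ℂ) (a : Fin k → ℤ) (w : Fin k → ℂ) (α : ℝ) : ℂ :=
  ∑ i, c i * (sy α ^ (a i) * Complex.exp ((rr (w i) α : ℂ) * I))

lemma term_cont (a : ℤ) (w : ℂ) : Continuous fun α : ℝ => sy α ^ a * Complex.exp ((rr w α : ℂ) * I) := by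
  have h1 := sy_cont a
  have h2 := rr_cont w
  fun_prop

lemma symb_sq {k : ℕ} (c : Fin k → ℂ) (a : Fin k → ℤ) (w : Fin k → ℂ) (α : ℝ) :
    ((‖symb c a w α‖ ^ 2 : ℝ) : ℂ) = ∑ i, ∑ j, c i * (starRingEnd ℂ) (c j) *
      (sy α ^ (a i - a j) * Complex.exp (((1 : ℝ) : ℂ) * (rr (w i - w j) α : ℂ) * I)) := by
  have h1 : ((‖symb c a w α‖ ^ 2 : ℝ) : ℂ) = symb c a w α * (starRingEnd ℂ) (symb c a w α) := by
    rw [Complex.mul_conj, Complex.normSq_eq_norm_sq]
  rw [h1]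
  unfold symb
  rw [map_sum, Finset.sum_mul_sum]
  refine Finset.sum_congr rfl fun i _ => Finset.sum_congr rfl fun j _ => ?_
  rw [map_mul, map_mul, ← Complex.exp_conj, map_mul, Complex.conj_ofReal, Complex.conj_I, map_zpow₀]
  have h2 : (starRingEnd ℂ) (sy α) = (sy α)⁻¹ := by
    rw [Complex.inv_def, Complex.normSq_eq_norm_sq, sy_norm]
    simp
  rw [h2, inv_zpow', zpow_sub₀ (sy_ne α), zpow_neg, div_eq_mul_inv, rr_sub]
  have h3 : Complex.exp (((1 : ℝ) : ℂ) * ((rr (w i) α - rr (w j) α : ℝ) : ℂ) * I) =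
      Complex.exp ((rr (w i) α : ℂ) * I) * Complex.exp ((rr (w j) α : ℂ) * -I) := by
    rw [← Complex.exp_add]
    congr 1
    push_cast; ring
  rw [h3]
  ring

lemma lim_eq {k : ℕ} (c : Fin k → ℂ) (a : Fin k → ℤ) (w : Fin k → ℂ) :
    ((1 / (2 * Real.pi) * ∫ α in (0:ℝ)..(2 * Real.pi), ‖symb c a w α‖ ^ 2 : ℝ) : ℂ) =
      ∑ i, ∑ j, c i * (starRingEnd ℂ) (c j) * ((-1 : ℂ) ^ (a j).natAbs *
        KW (w j - w i) (a i) (-(a j))) := by
  rw [Complex.ofReal_mul, ← intervalIntegral.integral_ofReal]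
  simp_rw [symb_sq, coef]
  have hc : ∀ i j : Fin k, Continuous fun α : ℝ => c i * (starRingEnd ℂ) (c j) *
      (sy α ^ (a i - a j) * Complex.exp (((1 : ℝ) : ℂ) * (rr (w i - w j) α : ℂ) * I)) := by
    intro i j
    have h1 := sy_cont (a i - a j)
    have h2 := rr_cont (w i - w j)
    fun_prop
  rw [intervalIntegral.integral_finsetSum fun i _ =>
    (continuous_finsetSum _ fun j _ => hc i j).intervalIntegrable _ _, Finset.mul_sum]
  refine Finset.sum_congr rfl fun i _ => ?_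
  rw [intervalIntegral.integral_finsetSum fun j _ => (hc i j).intervalIntegrable _ _, Finset.mul_sum]
  refine Finset.sum_congr rfl fun j _ => ?_
  rw [intervalIntegral.integral_const_mul]
  unfold yy
  ring

/-- the statement for a configuration -/
lemma cfg_iso {Ω B L : Set ℂ} {h : ℕ → ℝ} {R : ℝ} (cf : Cfg Ω B L h R) {u : ℕ → ℂ → ℝ}
    (hS : Sys Ω h u) {φ : ℂ → ℝ} (hφ : TF B φ) {k : ℕ} (c : Fin k → ℂ) (a : Fin k → ℤ)
    (w : Fin k → ℂ) (h1 : ∀ i, ‖w i‖ ≤ R) (h2 : ∀ i j, ‖w j - w i‖ ≤ R) :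
    Tendsto (fun n => ∫ z, φ z * ‖∑ i, c i * W (h n) (u n) (a i) (z + (h n : ℂ) * w i)‖ ^ 2) atTop
      (𝓝 ((1 / (2 * Real.pi) * ∫ α in (0:ℝ)..(2 * Real.pi), ‖symb c a w α‖ ^ 2) * ∫ z, φ z)) := by
  have hfam := fun i => famV cf hS (h1 i)
  have key : Tendsto (fun n => ∑ i, ∑ j, c i * (starRingEnd ℂ) (c j) * ((-1 : ℂ) ^ (a j).natAbs *
      ∫ z, (φ z : ℂ) * (VV h u (w i) n (a i) z * VV h u (w j) n (-(a j)) z))) atTop
      (𝓝 (∑ i, ∑ j, c i * (starRingEnd ℂ) (c j) * ((-1 : ℂ) ^ (a j).natAbs *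
        (KW (w j - w i) (a i) (-(a j)) * ((∫ z, φ z : ℝ) : ℂ))))) := by
    refine tendsto_finsetSum _ fun i _ => tendsto_finsetSum _ fun j _ => ?_
    exact ((pairV cf hS (h1 i) (h1 j) (h2 i j) φ hφ (a i) (-(a j))).const_mul _).const_mul _
  have hL : (∑ i, ∑ j, c i * (starRingEnd ℂ) (c j) * ((-1 : ℂ) ^ (a j).natAbs *
        (KW (w j - w i) (a i) (-(a j)) * ((∫ z, φ z : ℝ) : ℂ)))) =
      (((1 / (2 * Real.pi) * ∫ α in (0:ℝ)..(2 * Real.pi), ‖symb c a w α‖ ^ 2) * ∫ z, φ z : ℝ) : ℂ) := by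
    rw [Complex.ofReal_mul, lim_eq, Finset.sum_mul]
    refine Finset.sum_congr rfl fun i _ => ?_
    rw [Finset.sum_mul]
    refine Finset.sum_congr rfl fun j _ => ?_
    ring
  rw [hL] at key
  have hF : ∀ n, ∑ i, ∑ j, c i * (starRingEnd ℂ) (c j) * ((-1 : ℂ) ^ (a j).natAbs *
      ∫ z, (φ z : ℂ) * (VV h u (w i) n (a i) z * VV h u (w j) n (-(a j)) z)) =
      ((∫ z, φ z * ‖∑ i, c i * W (h n) (u n) (a i) (z + (h n : ℂ) * w i)‖ ^ 2 : ℝ) : ℂ) := by
    intro n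
    have hint : ∀ i j : Fin k, Integrable (fun z => (φ z : ℂ) *
        (VV h u (w i) n (a i) z * VV h u (w j) n (-(a j)) z)) := by
      intro i j
      exact int_mul cf.oB hφ (((hfam i).smooth n (a i)).continuousOn.mul
        ((hfam j).smooth n (-(a j))).continuousOn)
    have e0 : ((∫ z, φ z * ‖∑ i, c i * W (h n) (u n) (a i) (z + (h n : ℂ) * w i)‖ ^ 2 : ℝ) : ℂ) =
        ∫ z, ((φ z * ‖∑ i, c i * W (h n) (u n) (a i) (z + (h n : ℂ) * w i)‖ ^ 2 : ℝ) : ℂ) :=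
      integral_ofReal.symm
    rw [e0]
    have e1 : (fun z => ((φ z * ‖∑ i, c i * W (h n) (u n) (a i) (z + (h n : ℂ) * w i)‖ ^ 2 : ℝ) : ℂ)) =
        fun z => ∑ i, ∑ j, c i * (starRingEnd ℂ) (c j) * ((-1 : ℂ) ^ (a j).natAbs *
          ((φ z : ℂ) * (VV h u (w i) n (a i) z * VV h u (w j) n (-(a j)) z))) := by
      funext z
      by_cases hz : z ∈ B
      · have e2 : ((‖∑ i, c i * W (h n) (u n) (a i) (z + (h n : ℂ) * w i)‖ ^ 2 : ℝ) : ℂ) =
            ∑ i, ∑ j, c i * (starRingEnd ℂ) (c j) * ((-1 : ℂ) ^ (a j).natAbs *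
              (VV h u (w i) n (a i) z * VV h u (w j) n (-(a j)) z)) := by
          rw [← Complex.normSq_eq_norm_sq, ← Complex.mul_conj, map_sum, Finset.sum_mul_sum]
          refine Finset.sum_congr rfl fun i _ => Finset.sum_congr rfl fun j _ => ?_
          have e3 : (starRingEnd ℂ) (W (h n) (u n) (a j) (z + (h n : ℂ) * w j)) =
              (-1) ^ (a j).natAbs * VV h u (w j) n (-(a j)) z := (hfam j).cj n (a j) z hz
          rw [map_mul, e3]
          show c i * VV h u (w i) n (a i) z * _ = _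
          ring
        rw [Complex.ofReal_mul, e2, Finset.mul_sum]
        refine Finset.sum_congr rfl fun i _ => ?_
        rw [Finset.mul_sum]
        refine Finset.sum_congr rfl fun j _ => ?_
        ring
      · rw [TF.zero hφ hz]
        simp
    rw [e1, integral_finsetSum]
    · refine Finset.sum_congr rfl fun i _ => ?_
      rw [integral_finsetSum]
      · refine Finset.sum_congr rfl fun j _ => ?_
        rw [integral_const_mul, integral_const_mul]
      · intro j _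
        exact ((hint i j).const_mul _).const_mul _
    · intro i _
      exact integrable_finsetSum _ fun j _ => ((hint i j).const_mul _).const_mul _
  simp_rw [hF] at key
  have h3 := (Complex.continuous_re.tendsto _).comp key
  simpa only [Function.comp_def, Complex.ofReal_re] using h3

/-- BR/ISO -/
theorem ISO : S_ISO := by
  intro Ω hΩ h u hS φ hφ k c a w
  set R : ℝ := 2 * ∑ i, ‖w i‖ with hR
  have hR0 : 0 ≤ R := by positivity
  obtain ⟨N, B, L, cf, hB⟩ := exists_cfg hΩ hS.hlim hφ R hR0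
  have h0 : ∀ i, ‖w i‖ ≤ ∑ i, ‖w i‖ := fun i =>
    Finset.single_le_sum (f := fun i => ‖w i‖) (fun _ _ => norm_nonneg _) (Finset.mem_univ i)
  have hs0 : 0 ≤ ∑ i, ‖w i‖ := by positivity
  have h1 : ∀ i, ‖w i‖ ≤ R := fun i => by linarith [h0 i]
  have h2 : ∀ i j, ‖w j - w i‖ ≤ R := fun i j => by
    have := norm_sub_le (w j) (w i)
    linarith [h0 i, h0 j]
  have := cfg_iso cf (Pool.Agent.Y265.RW.Sys.shift hS N) hB c a w h1 h2
  exact (tendsto_add_atTop_iff_nat N).1 this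

end Pool.Agent.N511.BRISO
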